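import Pool.Agent.P8H79.RC.Stm

/-!
# Project RC: package SHORT (a shortest odd closed walk is an isometric induced cycle).
-/

set_option autoImplicit false

namespace Pool.Agent.P8H52.RC

open Pool.Agent.P8H79.RC

variable {V : Type} {G : SimpleGraph V}

/-- The sum of `φ` along a walk. -/
def par (φ : V → V → ZMod 2) : ∀ {a b : V}, G.Walk a b → ZMod 2
  | _, _, .nil => 0
  | a, _, .cons (v := v) _ p => φ a v + par φ p

theorem par_append (φ : V → V → ZMod 2) {a b c : V} (p : G.Walk a b) (q : G.Walk b c) :
    par φ (p.append q) = par φ p + par φ q := by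
  induction p with
  | nil => simp [par]
  | cons h p ih => simp [par, ih, add_assoc]

theorem par_reverse (φ : V → V → ZMod 2) (hs : ∀ a b, φ a b = φ b a) {a b : V}
    (p : G.Walk a b) : par φ p.reverse = par φ p := by
  induction p with
  | nil => simp [par]
  | @cons u v w h p ih =>
    rw [SimpleGraph.Walk.reverse_cons, par_append, ih]
    simp only [par]
    rw [hs v u]
    ring

theorem par_eq_sum (φ : V → V → ZMod 2) {a b : V} (p : G.Walk a b) :
    par φ p = ∑ k ∈ Finset.range p.length, φ (p.getVert k) (p.getVert (k + 1)) := by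
  induction p with
  | nil => simp [par]
  | @cons u v w h p ih =>
    rw [SimpleGraph.Walk.length_cons, Finset.sum_range_succ']
    simp only [par, SimpleGraph.Walk.getVert_cons_succ, SimpleGraph.Walk.getVert_zero]
    rw [ih, add_comm]

/-- There is a walk from `a` to `b` of length `n` and parity `c`. -/
def R (G : SimpleGraph V) (φ : V → V → ZMod 2) (a b : V) (n : ℕ) (c : ZMod 2) : Prop :=
  ∃ p : G.Walk a b, p.length = n ∧ par φ p = c

theorem R.trans {φ : V → V → ZMod 2} {a b d : V} {n m : ℕ} {c e : ZMod 2}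
    (h1 : R G φ a b n c) (h2 : R G φ b d m e) : R G φ a d (n + m) (c + e) := by
  obtain ⟨p, hp, hp'⟩ := h1
  obtain ⟨q, hq, hq'⟩ := h2
  exact ⟨p.append q, by simp [hp, hq], by rw [par_append, hp', hq']⟩

theorem R.symm {φ : V → V → ZMod 2} (hs : ∀ a b, φ a b = φ b a) {a b : V} {n : ℕ} {c : ZMod 2}
    (h1 : R G φ a b n c) : R G φ b a n c := by
  obtain ⟨p, hp, hp'⟩ := h1
  exact ⟨p.reverse, by simp [hp], by rw [par_reverse φ hs, hp']⟩

theorem R.adj {φ : V → V → ZMod 2} {a b : V} (h : G.Adj a b) : R G φ a b 1 (φ a b) :=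
  ⟨.cons h .nil, by simp, by simp [par]⟩

theorem R.refl {φ : V → V → ZMod 2} (a : V) : R G φ a a 0 0 :=
  ⟨.nil, by simp, by simp [par]⟩

theorem z2 (x : ZMod 2) : x = 0 ∨ x = 1 := by
  revert x; decide

theorem z2add (x : ZMod 2) : x + x = 0 := by
  revert x; decide

theorem z2three (x z y : ZMod 2) (h : x + z + y = 0) : z = x + y := by
  revert x z y; decide

theorem z2two (x y : ZMod 2) (h : x + y = 0) : y = x := by
  revert x y; decide

/-- There is an odd closed walk. -/
theorem exists_odd (φ : V → V → ZMod 2) (hc : G.Connected) (hs : ∀ a b, φ a b = φ b a)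
    (hf : ¬ ∃ f : V → ZMod 2, ∀ a b, G.Adj a b → φ a b = f a + f b) :
    ∃ n a, R G φ a a n 1 := by
  by_contra hno
  push Not at hno
  apply hf
  obtain ⟨r⟩ := hc.nonempty
  have hw : ∀ a, ∃ p : G.Walk r a, True := fun a => by
    obtain ⟨p⟩ := hc.preconnected r a
    exact ⟨p, trivial⟩
  choose w hw using hw
  refine ⟨fun a => par φ (w a), fun a b hab => ?_⟩
  have h1 : R G φ r a (w a).length (par φ (w a)) := ⟨w a, rfl, rfl⟩
  have h2 : R G φ r b (w b).length (par φ (w b)) := ⟨w b, rfl, rfl⟩
  have h3 := (h1.trans (R.adj hab)).trans (h2.symm hs)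
  have h4 : par φ (w a) + φ a b + par φ (w b) = 0 := by
    rcases z2 (par φ (w a) + φ a b + par φ (w b)) with h | h
    · exact h
    · rw [h] at h3
      exact absurd h3 (hno _ _)
  exact z2three _ _ _ h4

/-- Adjacency in the cycle graph. -/
theorem cyc_adj (l : ℕ) (hl : 2 ≤ l) (i j : Fin l) : (SimpleGraph.cycleGraph l).Adj i j ↔
    (j.val = i.val + 1 ∨ i.val = j.val + 1 ∨ (i.val = 0 ∧ j.val = l - 1) ∨
      (i.val = l - 1 ∧ j.val = 0)) := by
  rw [SimpleGraph.cycleGraph_adj']
  have hi := i.2
  have hj := j.2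
  have e1 : (i - j).val = (l - j.val + i.val) % l := Fin.val_sub i j
  have e2 : (j - i).val = (l - i.val + j.val) % l := Fin.val_sub j i
  rw [e1, e2]
  rcases lt_trichotomy i.val j.val with h | h | h
  · rw [Nat.mod_eq_of_lt (by omega : l - j.val + i.val < l),
      show l - i.val + j.val = (j.val - i.val) + l from by omega, Nat.add_mod_right,
      Nat.mod_eq_of_lt (by omega : j.val - i.val < l)]
    omega
  · rw [h, show l - j.val + j.val = l from by omega, Nat.mod_self]
    omega
  · rw [Nat.mod_eq_of_lt (by omega : l - i.val + j.val < l),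
      show l - j.val + i.val = (i.val - j.val) + l from by omega, Nat.add_mod_right,
      Nat.mod_eq_of_lt (by omega : i.val - j.val < l)]
    omega

theorem short : S_SHORT := by
  intro V _ G φ hc hs ht hf
  classical
  obtain ⟨n0, a0, h0⟩ := exists_odd φ hc hs hf
  have hex : ∃ n, ∃ a, R G φ a a n 1 := ⟨n0, a0, h0⟩
  obtain ⟨r, Q, hQl, hQp⟩ := Nat.find_spec hex
  have hmin : ∀ a n, R G φ a a n 1 → Nat.find hex ≤ n := fun a n h => Nat.find_min' hex ⟨a, h⟩
  generalize Nat.find hex = l at hQl hmin
  set q : ℕ → V := fun i => Q.getVert i with hq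
  have hq0 : q 0 = r := by simp [hq]
  have hql : q l = r := by simp [hq, ← hQl]
  have hadj : ∀ i, i < l → G.Adj (q i) (q (i + 1)) := fun i hi =>
    Q.adj_getVert_succ (by omega)
  set S : ℕ → ℕ → ZMod 2 := fun i j => ∑ k ∈ Finset.Ico i j, φ (q k) (q (k + 1)) with hS
  have hS1 : S 0 l = 1 := by
    rw [← hQp, par_eq_sum, hQl, hS]
    simp [hq]
  have harc : ∀ i j, i ≤ j → j ≤ l → R G φ (q i) (q j) (j - i) (S i j) := by
    intro i j hij
    induction j, hij using Nat.le_induction with
    | base => intro _; simp [hS, R.refl]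
    | succ j hij ih =>
      intro hj
      have h := (ih (by omega)).trans (R.adj (hadj j (by omega)))
      have e1 : j - i + 1 = j + 1 - i := by omega
      have e2 : S i j + φ (q j) (q (j + 1)) = S i (j + 1) := by
        simp only [hS]
        rw [Finset.sum_Ico_succ_top hij]
      rw [e1, e2] at h
      exact h
  have hSadd : ∀ i j, i ≤ j → j ≤ l → S 0 i + S i j + S j l = 1 := by
    intro i j hij hj
    rw [← hS1]
    simp only [hS]
    rw [Finset.sum_Ico_consecutive _ (Nat.zero_le i) hij,
      Finset.sum_Ico_consecutive _ (Nat.zero_le j) hj]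
  have key : ∀ i j m c, i ≤ j → j ≤ l → R G φ (q i) (q j) m c →
      min (j - i) (l - (j - i)) ≤ m := by
    intro i j m c hij hj hR
    have h1 := (harc i j hij hj).trans (hR.symm hs)
    have h2 : R G φ (q i) (q i) (m + (l - j) + (i - 0)) (c + S j l + S 0 i) := by
      have h3 := harc j l hj le_rfl
      have h4 := harc 0 i (Nat.zero_le i) (by omega)
      rw [hql] at h3
      rw [hq0] at h4
      exact (hR.trans h3).trans h4
    have h5 := hSadd i j hij hj
    rcases z2 (S i j + c) with h | h
    · have h6 : c + S j l + S 0 i = 1 := by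
        rw [← h5]
        rw [z2two _ _ h]; ring
      rw [h6] at h2
      have := hmin _ _ h2
      omega
    · rw [h] at h1
      have := hmin _ _ h1
      omega
  have key2 : ∀ i j m c, i < l → j < l → R G φ (q i) (q j) m c → cd l i j ≤ m := by
    intro i j m c hi hj hR
    rcases le_total i j with hij | hij
    · have := key i j m c hij hj.le hR
      rw [cd, max_eq_right hij, min_eq_left hij]
      exact this
    · have := key j i m c hij hi.le (hR.symm hs)
      rw [cd, max_eq_left hij, min_eq_right hij]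
      exact this
  have hinj : ∀ i j, i < l → j < l → q i = q j → i = j := by
    intro i j hi hj hij
    have h1 : R G φ (q i) (q j) 0 0 := by rw [← hij]; exact R.refl _
    have h2 := key2 i j 0 0 hi hj h1
    rw [cd] at h2
    omega
  have h4 : 4 ≤ l := by
    by_contra hlt
    have hcases : l = 0 ∨ l = 1 ∨ l = 2 ∨ l = 3 := by omega
    rcases hcases with h | h | h | h
    · rw [h] at hS1; simp [hS] at hS1
    · have h1 := hadj 0 (by omega)
      have h2 : q (0 + 1) = q 0 := by rw [hq0]; rw [h] at hql; exact hql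
      rw [h2] at h1
      exact G.loopless.irrefl _ h1
    · have h2 : q 2 = q 0 := by rw [hq0]; rw [h] at hql; exact hql
      rw [h] at hS1
      simp only [hS, Finset.sum_Ico_succ_top (by omega : 0 ≤ 1),
        Finset.sum_Ico_succ_top (le_refl 0), Finset.Ico_self, Finset.sum_empty, zero_add] at hS1
      rw [h2, hs (q 1) (q 0), z2add] at hS1
      exact absurd hS1 (by decide)
    · have h2 : q 3 = q 0 := by rw [hq0]; rw [h] at hql; exact hql
      have a1 := hadj 0 (by omega)
      have a2 := hadj 1 (by omega)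
      have a3 := hadj 2 (by omega)
      rw [h] at hS1
      have e : S 0 3 = φ (q 0) (q 1) + φ (q 1) (q 2) + φ (q 2) (q 3) := by
        simp only [hS]
        rw [Finset.sum_Ico_succ_top (by omega), Finset.sum_Ico_succ_top (by omega),
          Finset.sum_Ico_succ_top (by omega), Finset.Ico_self, Finset.sum_empty, zero_add]
      rw [e] at hS1
      simp only [zero_add, Nat.reduceAdd] at a1 a2 a3
      rw [h2] at a3 hS1
      rw [hs (q 2) (q 0), ht _ _ _ a1 a2 a3.symm] at hS1
      exact absurd hS1 (by decide)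
  have hlast : G.Adj (q (l - 1)) (q 0) := by
    have h1 := hadj (l - 1) (by omega)
    rwa [show l - 1 + 1 = l from by omega, hql, ← hq0] at h1
  have hadj_iff : ∀ i j : Fin l, G.Adj (q i.val) (q j.val) ↔
      (SimpleGraph.cycleGraph l).Adj i j := by
    intro i j
    rw [cyc_adj l (by omega)]
    constructor
    · intro h
      have h1 := key2 i.val j.val 1 _ i.2 j.2 (R.adj h)
      have h2 : i.val ≠ j.val := by
        intro e
        rw [e] at h
        exact G.loopless.irrefl _ h
      have hi := i.2
      have hj := j.2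
      rw [cd] at h1
      omega
    · intro h
      rcases h with h | h | ⟨h, h'⟩ | ⟨h, h'⟩
      · rw [h]; exact hadj _ (by have := j.2; omega)
      · rw [h]; exact (hadj _ (by have := i.2; omega)).symm
      · rw [h, h']; exact hlast.symm
      · rw [h, h']; exact hlast
  refine ⟨l, h4, ⟨⟨fun i => q i.val, fun i j hij => Fin.ext (hinj _ _ i.2 j.2 hij)⟩, ?_⟩, ?_⟩
  · intro i j
    exact hadj_iff i j
  · intro i j p
    exact key2 i.val j.val p.length (par φ p) i.2 j.2 ⟨p, rfl, rfl⟩

end Pool.Agent.P8H52.RC
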