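import Pool.Agent.P8H79.RC.Stm

set_option autoImplicit false

/-!
# Project RC: the counts `cl` and `holes` as cardinalities of sets of finite sets
-/

namespace Pool.Agent.P8H52.RC

open Pool.Agent.P8H79.RC

section
variable {V : Type}

open Classical in
theorem card_coe (s : Finset (Finset V)) (P : Set V → Prop) :
    (Finset.filter P (do let a ← s; pure (a : Set V))).card =
      (s.filter (fun S : Finset V => P (S : Set V))).card := by
  symm
  refine Finset.card_bij (fun S _ => (S : Set V)) ?_ ?_ ?_
  · intro S hS
    rw [Finset.mem_filter] at hS ⊢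
    refine ⟨?_, hS.2⟩
    simp only [Finset.bind_def, Finset.pure_def, Finset.mem_sup, Finset.mem_singleton]
    exact ⟨S, hS.1, rfl⟩
  · intro S _ S' _ h
    exact Finset.coe_injective h
  · intro b hb
    rw [Finset.mem_filter] at hb
    obtain ⟨h1, h2⟩ := hb
    simp only [Finset.bind_def, Finset.pure_def, Finset.mem_sup, Finset.mem_singleton] at h1
    obtain ⟨S, hS, rfl⟩ := h1
    exact ⟨S, Finset.mem_filter.2 ⟨hS, h2⟩, rfl⟩

open Classical in
/-- the number of cliques -/
theorem cl_eq (G : SimpleGraph V) (T : Finset V) (k : ℕ) :
    cl G T k = ((T.powersetCard k).filter (fun S : Finset V => G.IsClique (S : Set V))).card := by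
  unfold cl
  first
  | (congr; done)
  | convert card_coe (T.powersetCard k) (fun S => G.IsClique S)

open Classical in
/-- the number of holes -/
theorem holes_eq [Fintype V] (G : SimpleGraph V) (l : ℕ) :
    holes G l = (((Finset.univ : Finset V).powersetCard l).filter
      (fun S : Finset V => Nonempty (SimpleGraph.cycleGraph l ≃g G.induce (S : Set V)))).card := by
  unfold holes
  first
  | (congr; done)
  | convert card_coe ((Finset.univ : Finset V).powersetCard l)
      (fun S => Nonempty (SimpleGraph.cycleGraph l ≃g G.induce S))

end

end Pool.Agent.P8H52.RC
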