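import Pool.Agent.P8H79.RC.Stm
import Pool.Agent.P8H52.RC.Cl

set_option autoImplicit false

/-!
# Project RC: package COC
-/

namespace Pool.Agent.P8H52.RC

open Pool.Agent.P8H79.RC Module

/-- package COC -/
theorem coc : S_COC := by
  intro V _ _ G h
  classical
  obtain ⟨E, hE⟩ : ∃ E : Finset (Finset V),
    E = ((Finset.univ : Finset V).powersetCard 2).filter (fun S : Finset V => G.IsClique (S : Set V)) := ⟨_, rfl⟩
  obtain ⟨T, hT⟩ : ∃ T : Finset (Finset V),
    T = ((Finset.univ : Finset V).powersetCard 3).filter (fun S : Finset V => G.IsClique (S : Set V)) := ⟨_, rfl⟩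
  have hcE : cl G Finset.univ 2 = E.card := by
    rw [hE, cl_eq]
  have hcT : cl G Finset.univ 3 = T.card := by
    rw [hT, cl_eq]
  rw [hcE, hcT] at h
  have hEm : ∀ a b : V, a ≠ b → (({a, b} : Finset V) ∈ E ↔ G.Adj a b) := by
    intro a b hab
    rw [hE, Finset.mem_filter, Finset.mem_powersetCard]
    constructor
    · rintro ⟨-, h1⟩
      exact h1 (by simp) (by simp) hab
    · intro h1
      refine ⟨⟨Finset.subset_univ _, Finset.card_pair hab⟩, ?_⟩
      intro x hx y hy hxy
      simp only [Finset.coe_pair, Set.mem_insert_iff, Set.mem_singleton_iff] at hx hy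
      rcases hx with rfl | rfl <;> rcases hy with rfl | rfl
      · exact absurd rfl hxy
      · exact h1
      · exact h1.symm
      · exact absurd rfl hxy
  let ex : (E → ZMod 2) → Finset V → ZMod 2 := fun φ e => if h : e ∈ E then φ ⟨e, h⟩ else 0
  have hex_add : ∀ φ ψ e, ex (φ + ψ) e = ex φ e + ex ψ e := by
    intro φ ψ e
    show (if h : e ∈ E then (φ + ψ) ⟨e, h⟩ else 0) =
      (if h : e ∈ E then φ ⟨e, h⟩ else 0) + (if h : e ∈ E then ψ ⟨e, h⟩ else 0)
    split_ifs
    · rfl
    · rw [add_zero]
  have hex_smul : ∀ (c : ZMod 2) φ e, ex (c • φ) e = c * ex φ e := by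
    intro c φ e
    show (if h : e ∈ E then (c • φ) ⟨e, h⟩ else 0) = c * (if h : e ∈ E then φ ⟨e, h⟩ else 0)
    split_ifs
    · rfl
    · rw [mul_zero]
  let D : (E → ZMod 2) →ₗ[ZMod 2] (T → ZMod 2) :=
    { toFun := fun φ t => ∑ v ∈ t.1, ex φ (t.1.erase v)
      map_add' := by
        intro φ ψ
        funext t
        show ∑ v ∈ t.1, ex (φ + ψ) (t.1.erase v) =
          ∑ v ∈ t.1, ex φ (t.1.erase v) + ∑ v ∈ t.1, ex ψ (t.1.erase v)
        rw [← Finset.sum_add_distrib]
        exact Finset.sum_congr rfl fun v _ => hex_add _ _ _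
      map_smul' := by
        intro c φ
        funext t
        show ∑ v ∈ t.1, ex (c • φ) (t.1.erase v) = c * ∑ v ∈ t.1, ex φ (t.1.erase v)
        rw [Finset.mul_sum]
        exact Finset.sum_congr rfl fun v _ => hex_smul _ _ _ }
  let δ : (V → ZMod 2) →ₗ[ZMod 2] (E → ZMod 2) :=
    { toFun := fun f e => ∑ v ∈ e.1, f v
      map_add' := by
        intro f g
        funext e
        exact Finset.sum_add_distrib
      map_smul' := by
        intro c f
        funext e
        exact (Finset.mul_sum _ _ _).symm }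
  have h1 := LinearMap.finrank_range_add_finrank_ker D
  have h2 := LinearMap.finrank_range_add_finrank_ker δ
  rw [Module.finrank_fintype_fun_eq_card] at h1 h2
  have h3 : finrank (ZMod 2) (LinearMap.range D) ≤ T.card := by
    have h4 := Submodule.finrank_le (LinearMap.range D)
    rw [Module.finrank_fintype_fun_eq_card, Fintype.card_coe] at h4
    exact h4
  rw [Fintype.card_coe] at h1
  have h5 : 1 ≤ finrank (ZMod 2) (LinearMap.ker δ) := by
    have h6 : (fun _ => 1 : V → ZMod 2) ∈ LinearMap.ker δ := by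
      rw [LinearMap.mem_ker]
      funext e
      show ∑ v ∈ e.1, (1 : ZMod 2) = 0
      have he : ∀ x ∈ E, x.card = 2 := by
        intro x hx
        rw [hE, Finset.mem_filter, Finset.mem_powersetCard] at hx
        exact hx.1.2
      rw [Finset.sum_const, he _ e.2]
      decide
    rw [Nat.one_le_iff_ne_zero, Ne, Submodule.finrank_eq_zero]
    intro h7
    rw [h7, Submodule.mem_bot] at h6
    obtain ⟨v⟩ := ‹Nonempty V›
    have h8 := congrFun h6 v
    exact one_ne_zero h8
  have h6 : ¬ LinearMap.ker D ≤ LinearMap.range δ := by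
    intro h7
    have h8 := Submodule.finrank_mono h7
    omega
  obtain ⟨φ, hφ1, hφ2⟩ := SetLike.not_le_iff_exists.1 h6
  refine ⟨fun a b => ex φ {a, b}, ?_, ?_, ?_⟩
  · intro a b
    show ex φ {a, b} = ex φ {b, a}
    rw [Finset.pair_comm]
  · intro a b c hab hbc hac
    have h7 : ({a, b, c} : Finset V) ∈ T := by
      rw [hT, Finset.mem_filter, Finset.mem_powersetCard]
      refine ⟨⟨Finset.subset_univ _, Finset.card_eq_three.2 ⟨a, b, c, hab.ne, hac.ne, hbc.ne, rfl⟩⟩, ?_⟩
      intro x hx y hy hxy
      simp only [Finset.coe_insert, Finset.coe_singleton, Set.mem_insert_iff, Set.mem_singleton_iff] at hx hy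
      rcases hx with rfl | rfl | rfl <;> rcases hy with rfl | rfl | rfl
      · exact absurd rfl hxy
      · exact hab
      · exact hac
      · exact hab.symm
      · exact absurd rfl hxy
      · exact hbc
      · exact hac.symm
      · exact hbc.symm
      · exact absurd rfl hxy
    rw [LinearMap.mem_ker] at hφ1
    have h8 : ∑ v ∈ ({a, b, c} : Finset V), ex φ (({a, b, c} : Finset V).erase v) = 0 :=
      congrFun hφ1 ⟨_, h7⟩
    rw [Finset.sum_insert (by simp [hab.ne, hac.ne]), Finset.sum_insert (by simp [hbc.ne]),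
      Finset.sum_singleton] at h8
    have e1 : ({a, b, c} : Finset V).erase a = {b, c} := by
      ext x; simp only [Finset.mem_erase, Finset.mem_insert, Finset.mem_singleton]
      constructor
      · rintro ⟨h1, h2 | h2⟩
        · exact absurd h2 h1
        · exact h2
      · rintro (rfl | rfl)
        · exact ⟨hab.ne', Or.inr (Or.inl rfl)⟩
        · exact ⟨hac.ne', Or.inr (Or.inr rfl)⟩
    have e2 : ({a, b, c} : Finset V).erase b = {a, c} := by
      ext x; simp only [Finset.mem_erase, Finset.mem_insert, Finset.mem_singleton]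
      constructor
      · rintro ⟨h1, h2 | h2 | h2⟩
        · exact Or.inl h2
        · exact absurd h2 h1
        · exact Or.inr h2
      · rintro (rfl | rfl)
        · exact ⟨hab.ne, Or.inl rfl⟩
        · exact ⟨hbc.ne', Or.inr (Or.inr rfl)⟩
    have e3 : ({a, b, c} : Finset V).erase c = {a, b} := by
      ext x; simp only [Finset.mem_erase, Finset.mem_insert, Finset.mem_singleton]
      constructor
      · rintro ⟨h1, h2 | h2 | h2⟩
        · exact Or.inl h2
        · exact Or.inr h2
        · exact absurd h2 h1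
      · rintro (rfl | rfl)
        · exact ⟨hac.ne, Or.inl rfl⟩
        · exact ⟨hbc.ne, Or.inr (Or.inl rfl)⟩
    rw [e1, e2, e3] at h8
    show ex φ {a, b} + ex φ {b, c} + ex φ {a, c} = 0
    rw [← h8]
    ring
  · rintro ⟨f, hf⟩
    apply hφ2
    refine ⟨f, ?_⟩
    funext e
    show ∑ v ∈ e.1, f v = φ e
    obtain ⟨e, he⟩ := e
    have he' := he
    rw [hE, Finset.mem_filter, Finset.mem_powersetCard] at he'
    obtain ⟨a, b, hab, rfl⟩ := Finset.card_eq_two.1 he'.1.2
    show ∑ v ∈ ({a, b} : Finset V), f v = _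
    rw [Finset.sum_pair hab, ← hf a b ((hEm a b hab).1 he)]
    show (if h : {a, b} ∈ E then φ ⟨{a, b}, h⟩ else 0) = _
    rw [dif_pos he]

end Pool.Agent.P8H52.RC
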