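import Pool.Agent.P8H79.RC.Stm

set_option autoImplicit false

/-!
# Project RC: package REG
-/

namespace Pool.Agent.P8H52.RC

open Pool.Agent.P8H79.RC SimpleGraph

/-- package REG -/
theorem reg : S_REG := by
  intro τ _ Γ N hN hc h2
  classical
  obtain ⟨v⟩ := hc.nonempty
  have hcyc : Γ.IsCycles := fun w _ => h2 w
  have hne : (Γ.neighborSet v).Nonempty := by
    rw [← Set.ncard_pos (Set.toFinite _), h2]
    exact two_pos
  obtain ⟨p, hp, hsupp⟩ := hcyc.exists_cycle_toSubgraph_verts_eq_connectedComponentSupp
    (c := Γ.connectedComponentMk v) (v := v) rfl hne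
  have hall : ∀ w, w ∈ p.support := by
    intro w
    have h3 : w ∈ p.toSubgraph.verts := by
      rw [hsupp]
      exact ConnectedComponent.sound (hc.preconnected w v)
    exact (Walk.mem_verts_toSubgraph p).1 h3
  -- the map on the positions
  have hl3 := hp.three_le_length
  have hinj : Set.InjOn p.getVert {i | i ≤ p.length - 1} := hp.getVert_injOn'
  have hsurj : ∀ w, ∃ i, i < p.length ∧ p.getVert i = w := by
    intro w
    obtain ⟨i, hi, hle⟩ := Walk.mem_support_iff_exists_getVert.1 (hall w)
    rcases hle.lt_or_eq with h | h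
    · exact ⟨i, h, hi⟩
    · refine ⟨0, by omega, ?_⟩
      rw [Walk.getVert_zero, ← hi, h, Walk.getVert_length]
  have hlen : p.length = N := by
    rw [← hN]
    have h3 : Nat.card (Fin p.length) = Nat.card τ := by
      refine Nat.card_eq_of_bijective (fun i : Fin p.length => p.getVert i.val) ⟨?_, ?_⟩
      · intro i j hij
        apply Fin.ext
        have hi := i.2
        have hj := j.2
        exact hinj (by show i.val ≤ p.length - 1; omega) (by show j.val ≤ p.length - 1; omega) hij
      · intro w
        obtain ⟨i, hi, h4⟩ := hsurj w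
        exact ⟨⟨i, hi⟩, h4⟩
    rw [← h3, Nat.card_fin]
  have hN0 : N ≠ 0 := by omega
  have : NeZero N := ⟨hN0⟩
  refine ⟨fun i => p.getVert i.val, ⟨?_, ?_⟩, ?_⟩
  · intro i j hij
    have hi := ZMod.val_lt i
    have hj := ZMod.val_lt j
    exact ZMod.val_injective N
      (hinj (by show i.val ≤ p.length - 1; omega) (by show j.val ≤ p.length - 1; omega) hij)
  · intro w
    obtain ⟨i, hi, h4⟩ := hsurj w
    refine ⟨(i : ZMod N), ?_⟩
    show p.getVert ((i : ZMod N).val) = w
    rw [ZMod.val_natCast, Nat.mod_eq_of_lt (by omega), h4]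
  · intro i
    have hi := ZMod.val_lt i
    show Γ.Adj (p.getVert i.val) (p.getVert (i + 1).val)
    have h1N : (1 : ZMod N).val = 1 := by
      have : Fact (1 < N) := ⟨by omega⟩
      exact ZMod.val_one N
    rw [ZMod.val_add, h1N]
    by_cases h : i.val + 1 < N
    · rw [Nat.mod_eq_of_lt h]
      exact p.adj_getVert_succ (by omega)
    · have h3 : i.val + 1 = N := by omega
      rw [h3, Nat.mod_self, Walk.getVert_zero]
      have h4 := p.adj_getVert_succ (i := i.val) (by omega)
      have h5 : p.getVert (i.val + 1) = v := by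
        rw [h3, ← hlen, Walk.getVert_length]
      rwa [h5] at h4

end Pool.Agent.P8H52.RC
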